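import Pool.Agent.Helper12.NK.St

/-!
# Project NK (MP_d63854_co), module FPC
-/

set_option autoImplicit false

namespace Pool.Agent.Helper28.NK

open Pool.Agent.Helper12.NK
open Pool.Agent.Helper51.AJ (IsMinor Planar Apex ExMinor Con Tch con_singleton con_pair con_union)

/-- a connected star -/
private theorem con_star {α : Type} {H : SimpleGraph α} (c : α) (S : Set α) (hc : c ∈ S)
    (h : ∀ x ∈ S, x ≠ c → H.Adj c x) : Pool.Agent.Helper51.AJ.Con H S := by
  change (H.induce S).Connected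
  rw [SimpleGraph.connected_iff]
  refine ⟨?_, ⟨⟨c, hc⟩⟩⟩
  have key : ∀ x : S, (H.induce S).Reachable ⟨c, hc⟩ x := by
    intro x
    by_cases hx : x.1 = c
    · have : x = ⟨c, hc⟩ := Subtype.ext hx
      rw [this]
    · exact SimpleGraph.Adj.reachable (h x.1 x.2 hx)
  intro x y
  exact (key x).symm.trans (key y)

/-- MODULE FPC. -/
theorem hFPC : StMNR → StPLS → StFPC := by
  intro hMNR hPLS V _ G U hK hP s t hs ht hst hcof hno
  have hpl := hPLS V G U hK hP
  obtain ⟨-, h2⟩ := hMNR _ (plus G U) hpl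
  refine h2 (fun i => {Sum.inl (s i)})
    (fun j => {x | x = Sum.inl (t j) ∨ ∃ F : {F : Set V // IsFace G U F}, x = Sum.inr F ∧ t j ∈ F.1})
    ?_ ?_ ?_ ?_ ?_ ?_
  · intro i
    exact con_singleton _ _
  · intro j
    refine con_star (Sum.inl (t j)) _ (Or.inl rfl) ?_
    rintro x (hx | ⟨F, hx, hF⟩) hne
    · exact absurd hx hne
    · rw [hx]
      exact hF
  · intro i j hij
    rw [Set.disjoint_singleton]
    intro h
    exact hij (hs (Sum.inl.inj h))
  · intro i j hij
    rw [Set.disjoint_left]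
    rintro x (hx | ⟨F, hx, hF⟩) (hy | ⟨F', hy, hF'⟩)
    · exact hij (ht (Sum.inl.inj (hx.symm.trans hy)))
    · rw [hx] at hy
      cases hy
    · rw [hx] at hy
      cases hy
    · have hFF : F = F' := Sum.inr.inj (hx.symm.trans hy)
      rw [← hFF] at hF'
      exact hno F.1 i j F.2 hij hF hF'
  · intro i j
    rw [Set.disjoint_left]
    rintro x hx (hy | ⟨F', hy, hF'⟩)
    · exact hst i j (Sum.inl.inj (Eq.trans (Eq.symm hx) hy))
    · rw [show x = Sum.inl (s i) from hx] at hy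
      cases hy
  · intro i j
    obtain ⟨F, hF, h1, h3⟩ := hcof i j
    exact ⟨Sum.inl (s i), rfl, Sum.inr ⟨F, hF⟩, Or.inr ⟨⟨F, hF⟩, rfl, h3⟩, h1⟩

end Pool.Agent.Helper28.NK
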